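import Pool.Agent.BCS.Stmts4

/-! Squad BCS, part 4, row MDG: the metrics of parts 1, 2, 3 are smooth and positive definite. -/

noncomputable section

open scoped ContDiff Topology
open Set MeasureTheory

namespace Pool.Agent.BCS.H97

open Pool.Agent.SecondKind (Coord pd inv christoffel ricci)
open Pool.Agent.BCS

theorem smooth_pr {m : ℕ} : ContDiff ℝ ∞ (fun y : Fin (m + 2) → ℝ => pr y) := by
  have e : (fun y : Fin (m + 2) → ℝ => pr y) =
      fun y : Fin (m + 2) → ℝ => ((y 0 : ℝ) : ℂ) + ((y 1 : ℝ) : ℂ) * Complex.I := by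
    funext y
    apply Complex.ext
    · simp [pr]
    · simp [pr]
  rw [e]
  have h0 : ContDiff ℝ ∞ (fun y : Fin (m + 2) → ℝ => ((y 0 : ℝ) : ℂ)) :=
    Complex.ofRealCLM.contDiff.comp (contDiff_apply ℝ ℝ (0 : Fin (m + 2)))
  have h1 : ContDiff ℝ ∞ (fun y : Fin (m + 2) → ℝ => ((y 1 : ℝ) : ℂ)) :=
    Complex.ofRealCLM.contDiff.comp (contDiff_apply ℝ ℝ (1 : Fin (m + 2)))
  exact h0.add (h1.mul contDiff_const)

theorem smooth_tl {m : ℕ} : ContDiff ℝ ∞ (fun y : Fin (m + 2) → ℝ => tl y) := by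
  rw [contDiff_pi]
  intro i
  exact contDiff_apply ℝ ℝ (i.succ.succ : Fin (m + 2))

theorem smooth_pt {m : ℕ} :
    ContDiff ℝ ∞ (fun y : Fin (m + 2) → ℝ => ((pr y, tl y) : ℂ × (Fin m → ℝ))) :=
  smooth_pr.prodMk smooth_tl

theorem smooth_uu {m : ℕ} {φ : ℂ → ℝ} {f : Fin m → ℂ → ℝ} {χ : ℂ → (Fin m → ℝ) → ℝ} {α : ℝ}
    {β : Fin m → ℝ} (hφ : ContDiff ℝ ∞ φ) (hf : ∀ i, ContDiff ℝ ∞ (f i)) (hχ : SmP χ)
    (i : Fin (m + 2)) : ContDiff ℝ ∞ (fun y => uu φ f χ α β i y) := by
  have h1 : ContDiff ℝ ∞ (fun y : Fin (m + 2) → ℝ => φ (pr y)) := hφ.comp smooth_pr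
  have h2 : ContDiff ℝ ∞ (fun y : Fin (m + 2) → ℝ => χ (pr y) (tl y)) :=
    hχ.smooth.comp smooth_pt
  refine Fin.cases ?_ (fun i => Fin.cases ?_ (fun i => ?_) i) i
  · exact h1.add (contDiff_const.mul h2)
  · exact h1.add (contDiff_const.mul h2)
  · have h3 : ContDiff ℝ ∞ (fun y : Fin (m + 2) → ℝ => f i (pr y)) := (hf i).comp smooth_pr
    exact h3.add (contDiff_const.mul h2)

theorem met_dg {n : ℕ} {w : Fin n → (Fin n → ℝ) → ℝ} (hw : ∀ i, ContDiff ℝ ∞ (fun y => w i y)) :
    Met (Pool.Agent.RLim.H58.dg w) := by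
  refine ⟨fun i j => ?_, fun t i j => ?_, fun t v hv => ?_⟩
  · unfold Pool.Agent.RLim.H58.dg
    by_cases h : i = j
    · simp only [if_pos h]
      exact (contDiff_const.mul (hw i)).exp
    · simp only [if_neg h]
      exact contDiff_const
  · unfold Pool.Agent.RLim.H58.dg
    by_cases h : i = j
    · rw [if_pos h, if_pos h.symm, h]
    · rw [if_neg h, if_neg (Ne.symm h)]
  · have e : ∑ i, ∑ j, Pool.Agent.RLim.H58.dg w t i j * v i * v j =
        ∑ i, Real.exp (2 * w i t) * (v i * v i) := by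
      apply Finset.sum_congr rfl
      intro i _
      rw [Finset.sum_eq_single i]
      · unfold Pool.Agent.RLim.H58.dg
        rw [if_pos rfl]
        ring
      · intro j _ hj
        unfold Pool.Agent.RLim.H58.dg
        rw [if_neg (Ne.symm hj)]
        ring
      · intro h
        exact absurd (Finset.mem_univ i) h
    rw [e]
    obtain ⟨i, hi⟩ : ∃ i, v i ≠ 0 := by
      by_contra hcon
      push Not at hcon
      exact hv (funext hcon)
    apply Finset.sum_pos'
    · intro j _
      exact mul_nonneg (Real.exp_pos _).le (mul_self_nonneg _)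
    · exact ⟨i, Finset.mem_univ i, mul_pos (Real.exp_pos _) (mul_self_pos.2 hi)⟩

theorem met_blkU {m : ℕ} {U : ℂ → (Fin m → ℝ) → ℝ} {h : ℂ → Coord m}
    (hU : ContDiff ℝ ∞ (fun p : ℂ × (Fin m → ℝ) => U p.1 p.2)) (hh : FibM h) :
    Met (blkU U h) := by
  have h0 : ContDiff ℝ ∞ (fun y : Fin (m + 2) → ℝ => U (pr y) (tl y)) := hU.comp smooth_pt
  have h1 : ContDiff ℝ ∞ (fun y : Fin (m + 2) → ℝ => Real.exp (2 * U (pr y) (tl y))) :=
    (contDiff_const.mul h0).exp
  refine ⟨fun i j => ?_, fun t i j => ?_, fun t v hv => ?_⟩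
  · refine Fin.cases ?_ (fun i => Fin.cases ?_ (fun i => ?_) i) i
    · refine Fin.cases ?_ (fun j => ?_) j
      · exact h1
      · exact contDiff_const
    · refine Fin.cases ?_ (fun j => Fin.cases ?_ (fun j => ?_) j) j
      · exact contDiff_const
      · exact h1
      · exact contDiff_const
    · refine Fin.cases ?_ (fun j => Fin.cases ?_ (fun j => ?_) j) j
      · exact contDiff_const
      · exact contDiff_const
      · exact (hh.smooth i j).comp smooth_pt
  · refine Fin.cases ?_ (fun i => Fin.cases ?_ (fun i => ?_) i) i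
    · refine Fin.cases ?_ (fun j => Fin.cases ?_ (fun j => ?_) j) j
      · rfl
      · rfl
      · rfl
    · refine Fin.cases ?_ (fun j => Fin.cases ?_ (fun j => ?_) j) j
      · rfl
      · rfl
      · rfl
    · refine Fin.cases ?_ (fun j => Fin.cases ?_ (fun j => ?_) j) j
      · rfl
      · rfl
      · exact hh.symm (pr t) (tl t) i j
  · have e : ∑ i, ∑ j, blkU U h t i j * v i * v j =
        Real.exp (2 * U (pr t) (tl t)) * (v 0 * v 0 + v 1 * v 1) +
          ∑ i : Fin m, ∑ j : Fin m, h (pr t) (tl t) i j * v i.succ.succ * v j.succ.succ := by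
      rw [Fin.sum_univ_succ, Fin.sum_univ_succ (f := fun i : Fin (m + 1) => _)]
      have e1 : ∑ j, blkU U h t 0 j * v 0 * v j =
          Real.exp (2 * U (pr t) (tl t)) * (v 0 * v 0) := by
        rw [Fin.sum_univ_succ, Finset.sum_eq_zero]
        · show Real.exp (2 * U (pr t) (tl t)) * v 0 * v 0 + 0 = _
          ring
        · intro j _
          show (0 : ℝ) * v 0 * v j.succ = 0
          ring
      have e2 : ∑ j, blkU U h t (Fin.succ 0) j * v (Fin.succ 0) * v j =
          Real.exp (2 * U (pr t) (tl t)) * (v 1 * v 1) := by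
        rw [Fin.sum_univ_succ, Fin.sum_univ_succ, Finset.sum_eq_zero]
        · show (0 : ℝ) * v 1 * v 0 + (Real.exp (2 * U (pr t) (tl t)) * v 1 * v 1 + 0) = _
          ring
        · intro j _
          show (0 : ℝ) * v 1 * v j.succ.succ = 0
          ring
      have e3 : ∀ i : Fin m, ∑ j, blkU U h t i.succ.succ j * v i.succ.succ * v j =
          ∑ j : Fin m, h (pr t) (tl t) i j * v i.succ.succ * v j.succ.succ := by
        intro i
        rw [Fin.sum_univ_succ, Fin.sum_univ_succ]
        have f1 : blkU U h t i.succ.succ 0 = 0 := rfl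
        have f2 : blkU U h t i.succ.succ (Fin.succ 0) = 0 := rfl
        rw [f1, f2]
        have f3 : ∀ j : Fin m, blkU U h t i.succ.succ j.succ.succ = h (pr t) (tl t) i j :=
          fun j => rfl
        simp only [f3]
        ring
      rw [e1, e2, Finset.sum_congr rfl (fun i _ => e3 i)]
      ring
    rw [e]
    have hE : 0 < Real.exp (2 * U (pr t) (tl t)) := Real.exp_pos _
    by_cases hv2 : (fun i : Fin m => v i.succ.succ) = 0
    · have z : ∀ i : Fin m, v i.succ.succ = 0 := fun i => congrFun hv2 i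
      have z2 : ∑ i : Fin m, ∑ j : Fin m,
          h (pr t) (tl t) i j * v i.succ.succ * v j.succ.succ = 0 := by
        apply Finset.sum_eq_zero
        intro i _
        apply Finset.sum_eq_zero
        intro j _
        rw [z i]
        ring
      rw [z2, add_zero]
      apply mul_pos hE
      by_contra hcon
      push Not at hcon
      have a0 : v 0 * v 0 = 0 := by nlinarith [mul_self_nonneg (v 0), mul_self_nonneg (v 1)]
      have a1 : v 1 * v 1 = 0 := by nlinarith [mul_self_nonneg (v 0), mul_self_nonneg (v 1)]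
      apply hv
      funext i
      refine Fin.cases ?_ (fun i => Fin.cases ?_ (fun i => ?_) i) i
      · exact mul_self_eq_zero.1 a0
      · exact mul_self_eq_zero.1 a1
      · exact z i
    · have p1 := hh.pos (pr t) (tl t) (fun i : Fin m => v i.succ.succ) hv2
      have p2 : 0 ≤ Real.exp (2 * U (pr t) (tl t)) * (v 0 * v 0 + v 1 * v 1) :=
        mul_nonneg hE.le (add_nonneg (mul_self_nonneg _) (mul_self_nonneg _))
      exact add_pos_of_nonneg_of_pos p2 p1

theorem mdg : MdgStmt :=
  ⟨fun _ _ _ _ _ _ hφ hf hχ => met_dg (smooth_uu hφ hf hχ), fun _ _ _ hU hh => met_blkU hU hh⟩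

end Pool.Agent.BCS.H97
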