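import Pool.Agent.BCS.Stmts

noncomputable section

open scoped ContDiff Topology ComplexConjugate
open Set MeasureTheory

namespace Pool.Agent.BCS.H97

theorem norm_cp (θ : ℝ) : ‖cp θ‖ = 1 := by
  unfold cp
  exact Complex.norm_exp_ofReal_mul_I θ

theorem hasDerivAt_cp (θ : ℝ) : HasDerivAt cp (cp θ * Complex.I) θ := by
  have h : HasDerivAt (fun θ : ℝ => (θ : ℂ) * Complex.I) (1 * Complex.I) θ :=
    (Complex.ofRealCLM.hasDerivAt (x := θ)).mul_const _
  have h2 := h.cexp
  rw [one_mul] at h2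
  exact h2

theorem continuous_cp : Continuous cp := by
  rw [continuous_iff_continuousAt]
  exact fun θ => (hasDerivAt_cp θ).continuousAt

theorem cp_per (θ : ℝ) : cp (θ + 2 * Real.pi) = cp θ := by
  unfold cp
  push_cast
  rw [add_mul, Complex.exp_add, Complex.exp_two_pi_mul_I, mul_one]

theorem hasDerivAt_circ {F : Type} [NormedAddCommGroup F] [NormedSpace ℝ F] {f : ℂ → F} {θ : ℝ}
    (hf : DifferentiableAt ℝ f (cp θ)) :
    HasDerivAt (fun θ => f (cp θ)) (ang f (cp θ)) θ := by
  have h := hf.hasFDerivAt.comp_hasDerivAt θ (hasDerivAt_cp θ)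
  have e : (fderiv ℝ f (cp θ)) (cp θ * Complex.I) = ang f (cp θ) := by
    have e1 : cp θ * Complex.I = (-(cp θ).im) • (1 : ℂ) + (cp θ).re • Complex.I := by
      apply Complex.ext <;> simp
    rw [e1, map_add, map_smul, map_smul]
    unfold ang dx dy
    rw [neg_smul, sub_eq_add_neg, add_comm]
  rw [e] at h
  exact h

theorem cont_dx {F : Type} [NormedAddCommGroup F] [NormedSpace ℝ F] {f : ℂ → F}
    (hf : ContDiff ℝ 2 f) : Continuous (dx f) ∧ Continuous (dy f) := by
  have h := hf.continuous_fderiv (by norm_num)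
  exact ⟨h.clm_apply continuous_const, h.clm_apply continuous_const⟩

theorem cont_ang {F : Type} [NormedAddCommGroup F] [NormedSpace ℝ F] {f : ℂ → F}
    (hf : ContDiff ℝ 2 f) : Continuous (ang f) ∧ Continuous (rad f) := by
  obtain ⟨h1, h2⟩ := cont_dx hf
  exact ⟨(Complex.continuous_re.smul h2).sub (Complex.continuous_im.smul h1),
    (Complex.continuous_re.smul h1).add (Complex.continuous_im.smul h2)⟩

/-- `e^{iθ/2} w` -/
def Wf (w : ℂ → ℂ) (θ : ℝ) : ℂ := Complex.exp ((θ / 2 : ℝ) * Complex.I) * w (cp θ)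

def Wd (w : ℂ → ℂ) (θ : ℝ) : ℂ :=
  Complex.I / 2 * Wf w θ + Complex.exp ((θ / 2 : ℝ) * Complex.I) * ang w (cp θ)

theorem hasDerivAt_ex (θ : ℝ) : HasDerivAt (fun θ : ℝ => Complex.exp ((θ / 2 : ℝ) * Complex.I))
    (Complex.I / 2 * Complex.exp ((θ / 2 : ℝ) * Complex.I)) θ := by
  have h0 : HasDerivAt (fun θ : ℝ => θ / 2) (1 / 2) θ := (hasDerivAt_id θ).div_const 2
  have h : HasDerivAt (fun θ : ℝ => ((θ / 2 : ℝ) : ℂ) * Complex.I) (((1 / 2 : ℝ) : ℂ) * Complex.I) θ :=
    h0.ofReal_comp.mul_const _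
  have h2 := h.cexp
  have e : Complex.exp ((θ / 2 : ℝ) * Complex.I) * (((1 / 2 : ℝ) : ℂ) * Complex.I) =
      Complex.I / 2 * Complex.exp ((θ / 2 : ℝ) * Complex.I) := by
    push_cast
    ring
  rw [e] at h2
  exact h2

theorem hasDerivAt_Wf {w : ℂ → ℂ} (hw : ContDiff ℝ 2 w) (θ : ℝ) :
    HasDerivAt (Wf w) (Wd w θ) θ := by
  have h1 := hasDerivAt_circ (θ := θ) ((hw.differentiable (by norm_num)) (cp θ))
  have h := (hasDerivAt_ex θ).mul h1
  have e : Complex.I / 2 * Complex.exp ((θ / 2 : ℝ) * Complex.I) * w (cp θ) +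
      Complex.exp ((θ / 2 : ℝ) * Complex.I) * ang w (cp θ) = Wd w θ := by
    unfold Wd Wf
    ring
  rw [e] at h
  exact h

theorem Wf_anti (w : ℂ → ℂ) (θ : ℝ) : Wf w (θ + 2 * Real.pi) = -Wf w θ := by
  unfold Wf
  rw [cp_per]
  have e : Complex.exp (((θ + 2 * Real.pi) / 2 : ℝ) * Complex.I) =
      -Complex.exp ((θ / 2 : ℝ) * Complex.I) := by
    have e1 : (((θ + 2 * Real.pi) / 2 : ℝ) : ℂ) * Complex.I =
        ((θ / 2 : ℝ) : ℂ) * Complex.I + Real.pi * Complex.I := by
      push_cast
      ring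
    rw [e1, Complex.exp_add, Complex.exp_pi_mul_I]
    ring
  rw [e]
  ring

theorem ex_sq (θ : ℝ) : Complex.exp ((θ / 2 : ℝ) * Complex.I) ^ 2 = cp θ := by
  unfold cp
  rw [← Complex.exp_nat_mul]
  congr 1
  push_cast
  ring

theorem conj_ex (θ : ℝ) :
    conj (Complex.exp ((θ / 2 : ℝ) * Complex.I)) * Complex.exp ((θ / 2 : ℝ) * Complex.I) = 1 := by
  rw [← Complex.normSq_eq_conj_mul_self, Complex.normSq_eq_norm_sq,
    Complex.norm_exp_ofReal_mul_I]
  norm_num

theorem normSq_Wf (w : ℂ → ℂ) (θ : ℝ) : Complex.normSq (w (cp θ)) = (Wf w θ).re ^ 2 + (Wf w θ).im ^ 2 := by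
  have h : Complex.normSq (Wf w θ) = Complex.normSq (w (cp θ)) := by
    unfold Wf
    rw [Complex.normSq_mul, Complex.normSq_eq_norm_sq (Complex.exp _),
      Complex.norm_exp_ofReal_mul_I]
    ring
  rw [← h, Complex.normSq_apply]
  ring

theorem re_sq (w : ℂ → ℂ) (θ : ℝ) :
    (w (cp θ) ^ 2 * cp θ).re = (Wf w θ).re ^ 2 - (Wf w θ).im ^ 2 := by
  have h : w (cp θ) ^ 2 * cp θ = Wf w θ ^ 2 := by
    unfold Wf
    rw [← ex_sq]
    ring
  rw [h, pow_two, Complex.mul_re]
  ring

theorem im_conj (w : ℂ → ℂ) (θ : ℝ) :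
    2 * (conj (w (cp θ)) * ang w (cp θ)).im + Complex.normSq (w (cp θ)) =
      2 * ((Wf w θ).re * (Wd w θ).im - (Wf w θ).im * (Wd w θ).re) := by
  have h : conj (w (cp θ)) * ang w (cp θ) =
      conj (Wf w θ) * (Wd w θ - Complex.I / 2 * Wf w θ) := by
    unfold Wd Wf
    rw [map_mul]
    have := conj_ex θ
    calc conj (w (cp θ)) * ang w (cp θ) = (conj (Complex.exp ((θ / 2 : ℝ) * Complex.I)) *
          Complex.exp ((θ / 2 : ℝ) * Complex.I)) * (conj (w (cp θ)) * ang w (cp θ)) := by
          rw [this, one_mul]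
      _ = _ := by ring
  have h2 : (conj (Wf w θ) * (Wd w θ - Complex.I / 2 * Wf w θ)).im =
      (Wf w θ).re * (Wd w θ).im - (Wf w θ).im * (Wd w θ).re -
        ((Wf w θ).re ^ 2 + (Wf w θ).im ^ 2) / 2 := by
    simp only [Complex.mul_im, Complex.sub_re, Complex.sub_im, Complex.conj_re, Complex.conj_im,
      Complex.mul_re, Complex.div_re, Complex.div_im, Complex.I_re, Complex.I_im]
    norm_num
    ring
  rw [h, h2, normSq_Wf]
  ring

theorem t2a (h1 : KeyStmt) : T2aStmt := by
  intro n M φ F w hH hw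
  obtain ⟨hn, hM, hφ, hF, hin, hbd⟩ := hH
  have key := h1 n φ F w hn hφ hF hw
  set E := 8 * (n - 1) / n * dI (fun z => Real.exp (-φ z) *
        Complex.normSq (dzb w z - (n / 4 * Real.exp (φ z) : ℝ) * conj (w z))) with hE
  have hD : 0 ≤ dI (fun z => Complex.normSq (w z) * Real.exp (-φ z) * (-lap φ z - lap F z
      - (n - 1) / (2 * (n - 2)) * grad2 F z + n * (n - 1) / 2 * Real.exp (2 * φ z))) := by
    unfold dI
    refine setIntegral_nonneg Metric.isClosed_closedBall.measurableSet fun z hz => ?_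
    refine mul_nonneg (mul_nonneg (Complex.normSq_nonneg _) (Real.exp_pos _).le) (hin z ?_)
    simpa using hz
  -- the functions on the circle
  set X : ℝ → ℝ := fun θ => (Wf w θ).re with hX
  set Y : ℝ → ℝ := fun θ => (Wf w θ).im with hY
  set X' : ℝ → ℝ := fun θ => (Wd w θ).re with hX'
  set Y' : ℝ → ℝ := fun θ => (Wd w θ).im with hY'
  set p : ℝ → ℝ := fun θ => φ (cp θ) with hp
  set p' : ℝ → ℝ := fun θ => ang φ (cp θ) with hp'
  have dX : ∀ θ, HasDerivAt X (X' θ) θ := fun θ =>
    Complex.reCLM.hasFDerivAt.comp_hasDerivAt θ (hasDerivAt_Wf hw θ)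
  have dY : ∀ θ, HasDerivAt Y (Y' θ) θ := fun θ =>
    Complex.imCLM.hasFDerivAt.comp_hasDerivAt θ (hasDerivAt_Wf hw θ)
  have dp : ∀ θ, HasDerivAt p (p' θ) θ := fun θ =>
    hasDerivAt_circ ((hφ.differentiable (by norm_num)) (cp θ))
  have cW : Continuous (Wf w) :=
    continuous_iff_continuousAt.2 fun θ => (hasDerivAt_Wf hw θ).continuousAt
  have cWd : Continuous (Wd w) := by
    unfold Wd
    have c1 : Continuous (fun θ : ℝ => Complex.exp ((θ / 2 : ℝ) * Complex.I)) :=
      continuous_iff_continuousAt.2 fun θ => (hasDerivAt_ex θ).continuousAt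
    exact (continuous_const.mul cW).add (c1.mul ((cont_ang hw).1.comp continuous_cp))
  have cX : Continuous X := Complex.continuous_re.comp cW
  have cY : Continuous Y := Complex.continuous_im.comp cW
  have cX' : Continuous X' := Complex.continuous_re.comp cWd
  have cY' : Continuous Y' := Complex.continuous_im.comp cWd
  have cp0 : Continuous p := hφ.continuous.comp continuous_cp
  have cp1 : Continuous p' := (cont_ang hφ).1.comp continuous_cp
  have cE : Continuous (fun θ => Real.exp (-p θ)) := Real.continuous_exp.comp cp0.neg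
  have hXf : Xf w = X := rfl
  have hZ : ∀ θ, Zf (fun θ => φ (cp θ)) (Xf w) θ = Real.exp (-p θ) * (2 * X' θ - p' θ * X θ) := by
    intro θ
    unfold Zf
    rw [hXf, (dX θ).deriv, (dp θ).deriv]
  set Z : ℝ → ℝ := fun θ => Real.exp (-p θ) * (2 * X' θ - p' θ * X θ) with hZd
  have cZ : Continuous Z := cE.mul ((continuous_const.mul cX').sub (cp1.mul cX))
  have eZ : (∫ θ in (0 : ℝ)..(2 * Real.pi), Zf (fun θ => φ (cp θ)) (Xf w) θ ^ 2) =
      ∫ θ in (0 : ℝ)..(2 * Real.pi), Z θ ^ 2 := by
    refine intervalIntegral.integral_congr fun θ _ => ?_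
    simp only [hZ, hZd]
  rw [eZ, hXf]
  -- the boundary integrals
  have b1 : M * ∫ θ in (0 : ℝ)..(2 * Real.pi), (X θ ^ 2 + Y θ ^ 2) ≤
      cI (fun z => Complex.normSq (w z) * Real.exp (-φ z) * (1 + rad φ z + rad F z)) := by
    unfold cI
    rw [← intervalIntegral.integral_const_mul]
    refine intervalIntegral.integral_mono_on (by positivity) ?_ ?_ fun θ _ => ?_
    · exact (continuous_const.mul ((cX.pow 2).add (cY.pow 2))).intervalIntegrable _ _
    · refine Continuous.intervalIntegrable ?_ _ _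
      refine ((Complex.continuous_normSq.comp (hw.continuous.comp continuous_cp)).mul cE).mul ?_
      exact (continuous_const.add ((cont_ang hφ).2.comp continuous_cp)).add
        ((cont_ang hF).2.comp continuous_cp)
    · have h2 := hbd (cp θ) (norm_cp θ)
      show M * ((Wf w θ).re ^ 2 + (Wf w θ).im ^ 2) ≤
        Complex.normSq (w (cp θ)) * Real.exp (-φ (cp θ)) * (1 + rad φ (cp θ) + rad F (cp θ))
      rw [normSq_Wf]
      have h3 : 0 ≤ ((Wf w θ).re ^ 2 + (Wf w θ).im ^ 2) * Real.exp (-φ (cp θ)) := by positivity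
      have h4 := mul_le_mul_of_nonneg_left h2 h3
      have h5 : ((Wf w θ).re ^ 2 + (Wf w θ).im ^ 2) * Real.exp (-φ (cp θ)) *
          (M * Real.exp (φ (cp θ))) = M * ((Wf w θ).re ^ 2 + (Wf w θ).im ^ 2) := by
        have : Real.exp (-φ (cp θ)) * Real.exp (φ (cp θ)) = 1 := by
          rw [← Real.exp_add]; simp
        linear_combination (M * ((Wf w θ).re ^ 2 + (Wf w θ).im ^ 2)) * this
      rw [h5] at h4
      exact h4
  have b2 : cI (fun z => (w z ^ 2 * z).re) =
      ∫ θ in (0 : ℝ)..(2 * Real.pi), (X θ ^ 2 - Y θ ^ 2) := by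
    unfold cI
    exact intervalIntegral.integral_congr fun θ _ => re_sq w θ
  have cC : Continuous (fun θ => Real.exp (-p θ) * (2 * (X θ * Y' θ - Y θ * X' θ))) :=
    cE.mul (continuous_const.mul ((cX.mul cY').sub (cY.mul cX')))
  have b3 : 2 * cI (fun z => Real.exp (-φ z) * (conj (w z) * ang w z).im)
      + cI (fun z => Complex.normSq (w z) * Real.exp (-φ z)) =
      ∫ θ in (0 : ℝ)..(2 * Real.pi), Real.exp (-p θ) * (2 * (X θ * Y' θ - Y θ * X' θ)) := by
    unfold cI
    rw [← intervalIntegral.integral_const_mul, ← intervalIntegral.integral_add]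
    · refine intervalIntegral.integral_congr fun θ _ => ?_
      have := im_conj w θ
      simp only [hp, hX, hY, hX', hY']
      rw [← this]
      ring
    · refine Continuous.intervalIntegrable ?_ _ _
      refine continuous_const.mul (cE.mul (Complex.continuous_im.comp ?_))
      exact (Complex.continuous_conj.comp (hw.continuous.comp continuous_cp)).mul
        ((cont_ang hw).1.comp continuous_cp)
    · refine Continuous.intervalIntegrable ?_ _ _
      exact (Complex.continuous_normSq.comp (hw.continuous.comp continuous_cp)).mul cE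
  -- the exact derivative
  have cD : Continuous (fun θ => 2 * (Real.exp (-p θ) * (X' θ * Y θ + X θ * Y' θ)
      - Real.exp (-p θ) * p' θ * (X θ * Y θ))) :=
    continuous_const.mul ((cE.mul ((cX'.mul cY).add (cX.mul cY'))).sub
      ((cE.mul cp1).mul (cX.mul cY)))
  have b4 : (∫ θ in (0 : ℝ)..(2 * Real.pi), 2 * (Real.exp (-p θ) * (X' θ * Y θ + X θ * Y' θ)
      - Real.exp (-p θ) * p' θ * (X θ * Y θ))) = 0 := by
    have dd : ∀ θ, HasDerivAt (fun θ => 2 * (Real.exp (-p θ) * (X θ * Y θ)))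
        (2 * (Real.exp (-p θ) * (X' θ * Y θ + X θ * Y' θ)
          - Real.exp (-p θ) * p' θ * (X θ * Y θ))) θ := by
      intro θ
      have h2 := (((dp θ).neg.exp).mul ((dX θ).mul (dY θ))).const_mul 2
      refine h2.congr_deriv ?_
      simp only [Pi.neg_apply, Pi.mul_apply]
      ring
    rw [intervalIntegral.integral_eq_sub_of_hasDerivAt (fun θ _ => dd θ)
      (cD.intervalIntegrable _ _)]
    have e1 : Wf w (2 * Real.pi) = -Wf w 0 := by
      have := Wf_anti w 0
      rwa [zero_add] at this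
    have e2 : cp (2 * Real.pi) = cp 0 := by
      have := cp_per 0
      rwa [zero_add] at this
    simp only [hX, hY, hp, e1, e2, Complex.neg_re, Complex.neg_im]
    ring
  -- the sum
  have hK : 0 < M + (n - 1) := by linarith
  have fin : (∫ θ in (0 : ℝ)..(2 * Real.pi), ((M - (n - 1)) * X θ ^ 2 - M * (X θ ^ 2 + Y θ ^ 2)
      + (n - 1) * (X θ ^ 2 - Y θ ^ 2) + Real.exp (-p θ) * (2 * (X θ * Y' θ - Y θ * X' θ))
      - 2 * (Real.exp (-p θ) * (X' θ * Y θ + X θ * Y' θ)
        - Real.exp (-p θ) * p' θ * (X θ * Y θ)))) ≤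
      ∫ θ in (0 : ℝ)..(2 * Real.pi), Z θ ^ 2 / (M + (n - 1)) := by
    refine intervalIntegral.integral_mono_on (by positivity) ?_ ?_ fun θ _ => ?_
    · refine Continuous.intervalIntegrable ?_ _ _
      exact ((((continuous_const.mul (cX.pow 2)).sub
        (continuous_const.mul ((cX.pow 2).add (cY.pow 2)))).add
        (continuous_const.mul ((cX.pow 2).sub (cY.pow 2)))).add cC).sub cD
    · exact ((cZ.pow 2).div_const _).intervalIntegrable _ _
    · rw [le_div_iff₀ hK]
      have e : (M - (n - 1)) * X θ ^ 2 - M * (X θ ^ 2 + Y θ ^ 2)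
          + (n - 1) * (X θ ^ 2 - Y θ ^ 2) + Real.exp (-p θ) * (2 * (X θ * Y' θ - Y θ * X' θ))
          - 2 * (Real.exp (-p θ) * (X' θ * Y θ + X θ * Y' θ)
            - Real.exp (-p θ) * p' θ * (X θ * Y θ)) =
          -(M + (n - 1)) * Y θ ^ 2 - 2 * Y θ * Z θ := by
        simp only [hZd]
        ring
      rw [e]
      nlinarith [sq_nonneg ((M + (n - 1)) * Y θ + Z θ)]
  rw [intervalIntegral.integral_div, intervalIntegral.integral_sub, intervalIntegral.integral_add,
    intervalIntegral.integral_add, intervalIntegral.integral_sub,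
    intervalIntegral.integral_const_mul, intervalIntegral.integral_const_mul,
    intervalIntegral.integral_const_mul, b4] at fin
  · rw [b2] at key
    linarith
  · exact (continuous_const.mul (cX.pow 2)).intervalIntegrable _ _
  · exact (continuous_const.mul ((cX.pow 2).add (cY.pow 2))).intervalIntegrable _ _
  · exact ((continuous_const.mul (cX.pow 2)).sub
        (continuous_const.mul ((cX.pow 2).add (cY.pow 2)))).intervalIntegrable _ _
  · exact (continuous_const.mul ((cX.pow 2).sub (cY.pow 2))).intervalIntegrable _ _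
  · exact (((continuous_const.mul (cX.pow 2)).sub
        (continuous_const.mul ((cX.pow 2).add (cY.pow 2)))).add
        (continuous_const.mul ((cX.pow 2).sub (cY.pow 2)))).intervalIntegrable _ _
  · exact cC.intervalIntegrable _ _
  · exact ((((continuous_const.mul (cX.pow 2)).sub
        (continuous_const.mul ((cX.pow 2).add (cY.pow 2)))).add
        (continuous_const.mul ((cX.pow 2).sub (cY.pow 2)))).add cC).intervalIntegrable _ _
  · exact cD.intervalIntegrable _ _

end Pool.Agent.BCS.H97
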